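import Mathlib

/-!
# Latin squares, duplexes, and epimorphisms of latin squares
-/

namespace Pool.Agent.Duplex38

variable {R C S R' C' S' A B A₁ B₁ : Type*}

/-- `L` is a latin square with rows `R`, columns `C` and symbols `S`: every symbol occurs exactly once in each row
and exactly once in each column -/
def IsLatin (L : R → C → S) : Prop :=
  (∀ r, Function.Bijective fun c => L r c) ∧ ∀ c, Function.Bijective fun r => L r c

/-- a set of cells meeting every row, every column and every symbol exactly twice -/
def IsDuplex (L : R → C → S) (D : Set (R × C)) : Prop :=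
  (∀ r, {c | (r, c) ∈ D}.ncard = 2) ∧ (∀ c, {r | (r, c) ∈ D}.ncard = 2) ∧
    ∀ s, {x | x ∈ D ∧ L x.1 x.2 = s}.ncard = 2

/-- a set of cells meeting every row, every column and every symbol exactly once, given as a bijection from the rows
to the columns -/
def HasTransversal (T : A → B → S) : Prop := ∃ π : A ≃ B, Function.Bijective fun a => T a (π a)

/-- `T` is isotopic to the addition table of some abelian group -/
def AbelianIsotope (T : A → B → S) : Prop :=
  ∃ (G : Type) (_ : AddCommGroup G) (α : A ≃ G) (β : B ≃ G) (γ : S ≃ G), ∀ a b, γ (T a b) = α a + β b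

/-- `T₁` arises from `T` by permuting (renaming) the rows and the columns, the symbols being kept -/
def RowColEquiv (T : A → B → S) (T₁ : A₁ → B₁ → S) : Prop :=
  ∃ (α : A₁ ≃ A) (β : B₁ ≃ B), ∀ a b, T₁ a b = T (α a) (β b)

/-- a homotopism of `L` onto `L'` (three surjections, for the rows, the columns and the symbols) -/
structure Epi (L : R → C → S) (L' : R' → C' → S') where
  /-- rows -/
  row : R → R'
  /-- columns -/
  col : C → C'
  /-- symbols -/
  sym : S → S'
  row_surj : Function.Surjective row
  col_surj : Function.Surjective col
  sym_surj : Function.Surjective sym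
  map : ∀ r c, sym (L r c) = L' (row r) (col c)

/-- the block of `L` over the cell `(r', c')` of `L'`, which contains the symbol `s'`: the part of `L` in the rows over
`r'` and the columns over `c'`; its entries are symbols over `s'` -/
def Epi.block {L : R → C → S} {L' : R' → C' → S'} (h : Epi L L') {r' : R'} {c' : C'} {s' : S'}
    (hs : L' r' c' = s') (a : {r // h.row r = r'}) (b : {c // h.col c = c'}) : {s // h.sym s = s'} :=
  ⟨L a b, by rw [h.map, a.2, b.2, hs]⟩

/-- two latin squares (tables) over the same symbols that can serve as the two blocks over one symbol of a duplex: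
their order is at most `3`; or both have a transversal; or both are isotopic to abelian groups (not necessarily the same
group, and by any isotopisms), their order not being divisible by `4`; or the second arises from the first by permuting
rows and columns and the first has a duplex -/
def GoodPair (T : A → B → S) (T₁ : A₁ → B₁ → S) : Prop :=
  Nat.card S ≤ 3 ∨
  (HasTransversal T ∧ HasTransversal T₁) ∨
  (¬ 4 ∣ Nat.card S ∧ AbelianIsotope T ∧ AbelianIsotope T₁) ∨
  ((∃ D, IsDuplex T D) ∧ RowColEquiv T T₁)

/-- the local condition the lifting needs -/
def Pair (T : A → B → S) (T₁ : A₁ → B₁ → S) : Prop :=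
  ∃ (π : A ≃ B) (π₁ : A₁ ≃ B₁), ∀ s, {a | T a (π a) = s}.ncard + {a | T₁ a (π₁ a) = s}.ncard = 2

end Pool.Agent.Duplex38
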