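import Mathlib

/-!
# M. Hall's theorem on difference representations in a finite abelian group

If `∑ b i = 0`, the index type having as many elements as the group `G`, then `b i = g i - f i` for two
bijections `f, g` of the index type onto `G`.
-/

open Finset

namespace Pool.Agent.Duplex38

/-- multiplying a permutation by the transposition of two points of a cycle separates them -/
theorem not_sameCycle_swap_mul {I : Type*} [Finite I] [DecidableEq I] (θ : Equiv.Perm I) {t z : I} (htz : t ≠ z)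
    (h : θ.SameCycle z t) : ¬ (Equiv.swap t z * θ).SameCycle z t := by
  obtain ⟨N, hN⟩ := h.exists_nat_pow_eq
  classical
  have hex : ∃ n : ℕ, (θ ^ n) z = t := ⟨N, hN⟩
  set n := Nat.find hex with hn
  have hn1 : (θ ^ n) z = t := Nat.find_spec hex
  have hmin : ∀ i, i < n → (θ ^ i) z ≠ t := fun i hi => Nat.find_min hex hi
  have hn0 : 0 < n := by
    rcases Nat.eq_zero_or_pos n with h0 | h0
    · rw [h0] at hn1
      exact absurd hn1.symm htz
    · exact h0
  have hz : ∀ i, 0 < i → i < n → (θ ^ i) z ≠ z := by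
    intro i hi hin he
    have h1 : (θ ^ (n - i)) z = t := by
      have h2 : (θ ^ (n - i)) ((θ ^ i) z) = t := by
        rw [← Equiv.Perm.mul_apply, ← pow_add, Nat.sub_add_cancel hin.le, hn1]
      rwa [he] at h2
    exact hmin (n - i) (by omega) h1
  set τ : Equiv.Perm I := Equiv.swap t z * θ with hτ
  have h1 : ∀ i, i < n → (τ ^ i) z = (θ ^ i) z := by
    intro i
    induction i with
    | zero => intro _; rfl
    | succ i ih =>
      intro hi
      have h2 : θ ((θ ^ i) z) = (θ ^ (i + 1)) z := by rw [pow_succ', Equiv.Perm.mul_apply]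
      have h3 : (τ ^ (i + 1)) z = Equiv.swap t z (θ ((θ ^ i) z)) := by
        rw [pow_succ', Equiv.Perm.mul_apply, ih (by omega), hτ, Equiv.Perm.mul_apply]
      rw [h3, h2]
      exact Equiv.swap_apply_of_ne_of_ne (hmin _ hi) (hz _ (Nat.succ_pos _) hi)
  have h2 : (τ ^ n) z = z := by
    obtain ⟨m, hm⟩ : ∃ m, n = m + 1 := ⟨n - 1, by omega⟩
    rw [hm, pow_succ', Equiv.Perm.mul_apply, h1 m (by omega), hτ, Equiv.Perm.mul_apply]
    have h3 : θ ((θ ^ m) z) = t := by rw [← Equiv.Perm.mul_apply, ← pow_succ', ← hm, hn1]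
    rw [h3, Equiv.swap_apply_left]
  intro hs
  obtain ⟨k, hk⟩ := hs.exists_nat_pow_eq
  have h3 : ∀ q, ((τ ^ n) ^ q) z = z := by
    intro q
    induction q with
    | zero => rfl
    | succ q ih => rw [pow_succ, Equiv.Perm.mul_apply, h2, ih]
  have h4 : (τ ^ k) z = (τ ^ (k % n)) z := by
    conv_lhs => rw [← Nat.mod_add_div k n, pow_add, Equiv.Perm.mul_apply, pow_mul, h3]
  rw [h4, h1 _ (Nat.mod_lt _ hn0)] at hk
  exact hmin _ (Nat.mod_lt _ hn0) hk

variable {I G : Type*} [Fintype I] [DecidableEq I] [AddCommGroup G]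

/-- `b` is a difference of two bijections -/
def Rep (b : I → G) : Prop := ∃ f g : I ≃ G, ∀ i, g i - f i = b i

/-- `f', g'` agree with the wanted differences outside one index: then everywhere (sum) -/
theorem rep_of_all_but_one [Fintype G] {b : I → G} (hb : ∑ i, b i = 0) (f g : I ≃ G) (z : I)
    (h : ∀ i, i ≠ z → g i - f i = b i) : Rep b := by
  refine ⟨f, g, fun i => ?_⟩
  by_cases hi : i = z
  · subst hi
    have h1 : ∑ j, (g j - f j) = 0 := by
      rw [Finset.sum_sub_distrib, Equiv.sum_comp g (fun x => x), Equiv.sum_comp f (fun x => x), sub_self]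
    rw [← Finset.add_sum_erase _ _ (Finset.mem_univ i)] at h1 hb
    have h2 : ∑ j ∈ univ.erase i, (g j - f j) = ∑ j ∈ univ.erase i, b j :=
      Finset.sum_congr rfl fun j hj => h j (Finset.ne_of_mem_erase hj)
    rw [h2] at h1
    exact add_right_cancel (h1.trans hb.symm)
  · exact h i hi

/-- Hall's exchange step -/
theorem rep_step [Fintype G] {b b' : I → G} (hb : Rep b) {t z : I} (htz : t ≠ z)
    (h : ∀ i, i ≠ t → i ≠ z → b' i = b i) (hs : ∑ i, b' i = 0) : Rep b' := by
  classical
  obtain ⟨f, g, hfg⟩ := hb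
  set K : G := f t + f z + b' t with hK
  -- the permutation `θ`, `g (θ i) = K - f i`
  set θ : Equiv.Perm I := (f.trans (Equiv.subLeft K)).trans g.symm with hθ
  have hθg : ∀ i, g (θ i) = K - f i := fun i => by simp [hθ]
  obtain ⟨ε, hε2, hε, hcyc⟩ : ∃ ε : Equiv.Perm I, (∀ i, ε (ε i) = i) ∧ (∀ i, i ≠ t → i ≠ z → ε i = i) ∧
      ¬ (ε * θ).SameCycle z t := by
    by_cases hc : θ.SameCycle z t
    · exact ⟨Equiv.swap t z, fun i => by rw [← Equiv.Perm.mul_apply, Equiv.swap_mul_self, Equiv.Perm.one_apply], fun i h1 h2 => Equiv.swap_apply_of_ne_of_ne h1 h2, not_sameCycle_swap_mul θ htz hc⟩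
    · exact ⟨1, fun i => rfl, fun i _ _ => rfl, by rwa [one_mul]⟩
  set τ : Equiv.Perm I := ε * θ with hτ
  set ρ : Equiv.Perm I := τ.cycleOf z with hρ
  have hρt : ρ⁻¹ t = t := by
    rw [Equiv.Perm.inv_eq_iff_eq, hρ, Equiv.Perm.cycleOf_apply_of_not_sameCycle hcyc]
  refine rep_of_all_but_one hs (ρ⁻¹.trans f) ((((Equiv.swap t z).trans ρ).trans ε).trans g) z fun i hi => ?_
  simp only [Equiv.trans_apply]
  by_cases hit : i = t
  · subst hit
    rw [Equiv.swap_apply_left, hρt, hρ, Equiv.Perm.cycleOf_apply_self, hτ, Equiv.Perm.mul_apply, hε2, hθg, hK]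
    abel
  · rw [Equiv.swap_apply_of_ne_of_ne hit hi, h i hit hi, ← hfg i]
    by_cases hs : τ.SameCycle z i
    · have h1 : ρ i = τ i := Equiv.Perm.SameCycle.cycleOf_apply hs
      have h2 : ρ⁻¹ i = τ⁻¹ i := by
        rw [Equiv.Perm.inv_eq_iff_eq, hρ]
        have : τ.SameCycle z (τ⁻¹ i) := by
          have h3 : τ (τ⁻¹ i) = i := τ.apply_symm_apply i
          rw [← Equiv.Perm.sameCycle_apply_right, h3]; exact hs
        rw [Equiv.Perm.SameCycle.cycleOf_apply this]
        exact (τ.apply_symm_apply i).symm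
      have h4 : θ (τ⁻¹ i) = i := by
        have h5 : ε (θ (τ⁻¹ i)) = i := by rw [← Equiv.Perm.mul_apply, ← hτ]; exact τ.apply_symm_apply i
        exact ε.injective (h5.trans (hε i hit hi).symm)
      rw [h1, h2, hτ, Equiv.Perm.mul_apply, hε2, hθg, ← hτ]
      have h6 := hθg (τ⁻¹ i)
      rw [h4] at h6
      rw [h6]
      abel
    · have h1 : ρ i = i := Equiv.Perm.cycleOf_apply_of_not_sameCycle hs
      have h2 : ρ⁻¹ i = i := by rw [Equiv.Perm.inv_eq_iff_eq, h1]
      rw [h1, h2, hε i hit hi]

/-- M. Hall's theorem -/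
theorem hall [Fintype G] (hcard : Fintype.card I = Fintype.card G) (b : I → G) (hb : ∑ i, b i = 0) : Rep b := by
  classical
  rcases isEmpty_or_nonempty I with hI | ⟨⟨z⟩⟩
  · obtain ⟨e⟩ := Fintype.card_eq.1 hcard
    exact ⟨e, e, fun i => (hI.false i).elim⟩
  · suffices H : ∀ T : Finset I, z ∉ T → ∀ b : I → G, ∑ i, b i = 0 → (∀ i, i ∉ T → i ≠ z → b i = 0) → Rep b from
      H (univ.erase z) (Finset.notMem_erase z _) b hb fun i hi hz => absurd (Finset.mem_erase.2 ⟨hz, Finset.mem_univ i⟩) hi
    intro T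
    induction T using Finset.induction_on with
    | empty =>
      intro _ b hb h0
      obtain ⟨e⟩ := Fintype.card_eq.1 hcard
      refine rep_of_all_but_one hb e e z fun i hi => ?_
      rw [h0 i (Finset.notMem_empty i) hi, sub_self]
    | insert t T ht ih =>
      intro hz b hb h0
      have htz : t ≠ z := fun h => hz (h ▸ Finset.mem_insert_self t T)
      set b0 : I → G := Function.update (Function.update b t 0) z (b z + b t) with hb0
      have e1 : b0 z = b z + b t := by simp [hb0]
      have e2 : b0 t = 0 := by simp [hb0, htz]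
      have e3 : ∀ i, i ≠ t → i ≠ z → b0 i = b i := fun i h1 h2 => by simp [hb0, h1, h2]
      have hsum : ∑ i, b0 i = 0 := by
        rw [← hb, ← Finset.add_sum_erase _ _ (Finset.mem_univ z), ← Finset.add_sum_erase univ b (Finset.mem_univ z),
          ← Finset.add_sum_erase (univ.erase z) b0 (Finset.mem_erase.2 ⟨htz, Finset.mem_univ t⟩),
          ← Finset.add_sum_erase (univ.erase z) b (Finset.mem_erase.2 ⟨htz, Finset.mem_univ t⟩), e1, e2]
        have : ∑ i ∈ (univ.erase z).erase t, b0 i = ∑ i ∈ (univ.erase z).erase t, b i := by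
          refine Finset.sum_congr rfl fun i hi => e3 i (Finset.ne_of_mem_erase hi) ?_
          exact Finset.ne_of_mem_erase (Finset.mem_of_mem_erase hi)
        rw [this]; abel
      have hrep : Rep b0 := by
        refine ih (fun h => hz (Finset.mem_insert_of_mem h)) b0 hsum fun i hi hiz => ?_
        by_cases hit : i = t
        · rw [hit, e2]
        · rw [e3 i hit hiz]
          exact h0 i (fun h => (Finset.mem_insert.1 h).elim hit hi) hiz
      exact rep_step hrep htz (fun i h1 h2 => (e3 i h1 h2).symm) hb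

end Pool.Agent.Duplex38
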