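import Pool.Agent.Duplex38.Local

/-!
# Lifting a duplex along an epimorphism
-/

open Finset

namespace Pool.Agent.Duplex38

variable {R C S R' C' S' : Type*}

/-- a duplex `D` of `L'` lifts along an epimorphism `L → L'` when the two blocks over any two cells of `D` with the same
symbol satisfy the local condition -/
theorem lift_duplex [Finite R] [Finite C] [Finite S] [Finite R'] [Finite C'] {L : R → C → S} {L' : R' → C' → S'}
    (h : Epi L L') {D : Set (R' × C')} (hD : IsDuplex L' D)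
    (hp : ∀ r₁ c₁ r₂ c₂ s (h₁ : L' r₁ c₁ = s) (h₂ : L' r₂ c₂ = s), (r₁, c₁) ∈ D → (r₂, c₂) ∈ D → (r₁, c₁) ≠ (r₂, c₂) →
      Pair (h.block h₁) (h.block h₂)) : ∃ D₁, IsDuplex L D₁ := by
  classical
  obtain ⟨hr, hc, hs⟩ := hD
  -- the two cells of `D` with the symbol `s`
  have htwo : ∀ s : S', ∃ x y : R' × C', x ≠ y ∧ {z | z ∈ D ∧ L' z.1 z.2 = s} = {x, y} := fun s =>
    Set.ncard_eq_two.1 (hs s)
  choose x y hxy hset using htwo
  have hx : ∀ s, x s ∈ D ∧ L' (x s).1 (x s).2 = s := fun s => by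
    have : x s ∈ {z | z ∈ D ∧ L' z.1 z.2 = s} := by rw [hset]; exact Set.mem_insert _ _
    exact this
  have hy : ∀ s, y s ∈ D ∧ L' (y s).1 (y s).2 = s := fun s => by
    have : y s ∈ {z | z ∈ D ∧ L' z.1 z.2 = s} := by rw [hset]; exact Set.mem_insert_of_mem _ rfl
    exact this
  have hcell : ∀ z, z ∈ D → z = x (L' z.1 z.2) ∨ z = y (L' z.1 z.2) := fun z hz => by
    have : z ∈ {w | w ∈ D ∧ L' w.1 w.2 = L' z.1 z.2} := ⟨hz, rfl⟩
    rw [hset] at this
    exact this
  have hpair : ∀ s, Pair (h.block (hx s).2) (h.block (hy s).2) := fun s =>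
    hp _ _ _ _ s (hx s).2 (hy s).2 (hx s).1 (hy s).1 (hxy s)
  choose p q hpq using hpair
  -- the cells of `D`, indexed
  set cell : S' × Bool → R' × C' := fun i => if i.2 then y i.1 else x i.1 with hcelldef
  have cell_mem : ∀ i, cell i ∈ D := by
    rintro ⟨s, b⟩
    cases b
    · exact (hx s).1
    · exact (hy s).1
  have cell_sym : ∀ i, L' (cell i).1 (cell i).2 = i.1 := by
    rintro ⟨s, b⟩
    cases b
    · exact (hx s).2
    · exact (hy s).2
  have cell_inj : ∀ i j, cell i = cell j → i = j := by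
    intro i j hij
    have h1 : i.1 = j.1 := by rw [← cell_sym i, ← cell_sym j, hij]
    rcases i with ⟨s, b⟩
    rcases j with ⟨t, b'⟩
    simp only at h1
    subst h1
    cases b <;> cases b'
    · rfl
    · exact absurd hij (hxy s)
    · exact absurd hij.symm (hxy s)
    · rfl
  have cell_surj : ∀ z ∈ D, ∃ i, cell i = z := by
    intro z hz
    rcases hcell z hz with h1 | h1
    · exact ⟨(L' z.1 z.2, false), h1.symm⟩
    · exact ⟨(L' z.1 z.2, true), h1.symm⟩
  have hP : ∃ P : ∀ i : S' × Bool, {r // h.row r = (cell i).1} ≃ {c // h.col c = (cell i).2},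
      (∀ s, P (s, false) = p s) ∧ ∀ s, P (s, true) = q s := by
    refine ⟨fun i => match i with
      | (s, false) => p s
      | (s, true) => q s, fun s => rfl, fun s => rfl⟩
  obtain ⟨P, hPf, hPt⟩ := hP
  set D₁ : Set (R × C) := {z | ∃ i, ∃ hr : h.row z.1 = (cell i).1, (P i ⟨z.1, hr⟩ : C) = z.2} with hD₁
  have memD : ∀ r c, (r, c) ∈ D₁ ↔ ∃ i, ∃ hr : h.row r = (cell i).1, (P i ⟨r, hr⟩ : C) = c := fun r c => Iff.rfl
  have hfacts : ∀ i r (hr : h.row r = (cell i).1) c, (P i ⟨r, hr⟩ : C) = c → cell i = (h.row r, h.col c) := by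
    rintro i r hr c rfl
    exact Prod.ext hr.symm (P i ⟨r, hr⟩).2.symm
  refine ⟨D₁, fun r => ?_, fun c => ?_, fun s => ?_⟩
  · rw [← hr (h.row r)]
    have himg : {c' | (h.row r, c') ∈ D} = h.col '' {c | (r, c) ∈ D₁} := by
      ext c'
      constructor
      · intro hc'
        obtain ⟨i, hi⟩ := cell_surj _ hc'
        have hri : h.row r = (cell i).1 := by rw [hi]
        refine ⟨P i ⟨r, hri⟩, ⟨i, hri, rfl⟩, ?_⟩
        rw [(P i ⟨r, hri⟩).2, hi]
      · rintro ⟨c, ⟨i, hri, hPi⟩, rfl⟩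
        have := hfacts i r hri c hPi
        show (h.row r, h.col c) ∈ D
        rw [← this]
        exact cell_mem i
    rw [himg, Set.InjOn.ncard_image]
    rintro c ⟨i, hri, hPi⟩ c₁ ⟨j, hrj, hPj⟩ hcc
    have h1 := hfacts i r hri c hPi
    have h2 := hfacts j r hrj c₁ hPj
    have h3 : i = j := cell_inj i j (by rw [h1, h2, hcc])
    subst h3
    exact (show (P i ⟨r, hri⟩ : C) = c from hPi).symm.trans (show (P i ⟨r, hrj⟩ : C) = c₁ from hPj)
  · rw [← hc (h.col c)]
    have himg : {r' | (r', h.col c) ∈ D} = h.row '' {r | (r, c) ∈ D₁} := by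
      ext r'
      constructor
      · intro hr'
        obtain ⟨i, hi⟩ := cell_surj _ hr'
        have hci : h.col c = (cell i).2 := by rw [hi]
        refine ⟨(P i).symm ⟨c, hci⟩, ⟨i, ((P i).symm ⟨c, hci⟩).2, ?_⟩, ?_⟩
        · simp
        · rw [((P i).symm ⟨c, hci⟩).2, hi]
      · rintro ⟨r, ⟨i, hri, hPi⟩, rfl⟩
        have := hfacts i r hri c hPi
        show (h.row r, h.col c) ∈ D
        rw [← this]
        exact cell_mem i
    rw [himg, Set.InjOn.ncard_image]
    rintro r ⟨i, hri, hPi⟩ r₁ ⟨j, hrj, hPj⟩ hrr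
    have h1 := hfacts i r hri c hPi
    have h2 := hfacts j r₁ hrj c hPj
    have h3 : i = j := cell_inj i j (by rw [h1, h2]; rw [show h.row r = h.row r₁ from hrr])
    subst h3
    have h4 : P i ⟨r, hri⟩ = P i ⟨r₁, hrj⟩ := Subtype.ext ((show (P i ⟨r, hri⟩ : C) = c from hPi).trans
      (show (P i ⟨r₁, hrj⟩ : C) = c from hPj).symm)
    exact congrArg Subtype.val ((P i).injective h4)
  · set t : S' := h.sym s with ht
    have hsplit : {z | z ∈ D₁ ∧ L z.1 z.2 = s} =
        (fun a : {r // h.row r = (x t).1} => ((a : R), (p t a : C))) '' {a | h.block (hx t).2 a (p t a) = ⟨s, rfl⟩} ∪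
        (fun a : {r // h.row r = (y t).1} => ((a : R), (q t a : C))) '' {a | h.block (hy t).2 a (q t a) = ⟨s, rfl⟩} := by
      ext ⟨r, c⟩
      constructor
      · rintro ⟨⟨i, hri, hPi⟩, hL⟩
        have h1 := hfacts i r hri c hPi
        have h2 : i.1 = t := by
          rw [← cell_sym i, h1, ht, ← hL]
          exact (h.map r c).symm
        rcases i with ⟨u, b⟩
        simp only at h2
        subst h2
        cases b
        · left
          refine ⟨⟨r, hri⟩, ?_, Prod.ext rfl ?_⟩
          · refine Subtype.ext ?_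
            show L r (p t ⟨r, hri⟩ : C) = s
            rw [← hPf t]
            rw [show (P (t, false) ⟨r, hri⟩ : C) = c from hPi]
            exact hL
          · show (p t ⟨r, hri⟩ : C) = c
            rw [← hPf t]; exact hPi
        · right
          refine ⟨⟨r, hri⟩, ?_, Prod.ext rfl ?_⟩
          · refine Subtype.ext ?_
            show L r (q t ⟨r, hri⟩ : C) = s
            rw [← hPt t]
            rw [show (P (t, true) ⟨r, hri⟩ : C) = c from hPi]
            exact hL
          · show (q t ⟨r, hri⟩ : C) = c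
            rw [← hPt t]; exact hPi
      · rintro (⟨a, ha, he⟩ | ⟨a, ha, he⟩)
        · obtain ⟨h1, h2⟩ := Prod.mk_inj.1 he
          subst h1 h2
          refine ⟨⟨(t, false), a.2, ?_⟩, congrArg Subtype.val ha⟩
          show (P (t, false) a : C) = p t a
          rw [hPf]
        · obtain ⟨h1, h2⟩ := Prod.mk_inj.1 he
          subst h1 h2
          refine ⟨⟨(t, true), a.2, ?_⟩, congrArg Subtype.val ha⟩
          show (P (t, true) a : C) = q t a
          rw [hPt]
    have hdisj : Disjoint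
        ((fun a : {r // h.row r = (x t).1} => ((a : R), (p t a : C))) '' {a | h.block (hx t).2 a (p t a) = ⟨s, rfl⟩})
        ((fun a : {r // h.row r = (y t).1} => ((a : R), (q t a : C))) '' {a | h.block (hy t).2 a (q t a) = ⟨s, rfl⟩}) := by
      rw [Set.disjoint_left]
      rintro _ ⟨a, _, rfl⟩ ⟨b, _, he⟩
      obtain ⟨h1, h2⟩ := Prod.mk_inj.1 he
      refine hxy t (Prod.ext ?_ ?_)
      · rw [← a.2, ← b.2, h1]
      · rw [← (p t a).2, ← (q t b).2, h2]
    rw [hsplit, Set.ncard_union_eq hdisj (Set.toFinite _) (Set.toFinite _),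
      Set.ncard_image_of_injective _ (fun a b hab => Subtype.ext (Prod.mk_inj.1 hab).1),
      Set.ncard_image_of_injective _ (fun a b hab => Subtype.ext (Prod.mk_inj.1 hab).1)]
    exact hpq t ⟨s, rfl⟩

end Pool.Agent.Duplex38
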