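import Pool.Agent.Duplex38.Hall

/-!
# Prescribed symbol counts on a generalised diagonal of a table isotopic to an abelian group
-/

open Finset

namespace Pool.Agent.Duplex38

/-- In the table `a, b ↦ γ⁻¹ (α a + β b)` there is a generalised diagonal `π` on which every symbol `s` occurs
`m s` times, as soon as `∑ m s • γ s = 0`. -/
theorem realise {A B S G : Type*} [Fintype S] [AddCommGroup G] (α : A ≃ G) (β : B ≃ G) (γ : S ≃ G)
    (m : S → ℕ) (hm : ∑ s, m s = Nat.card S) (h0 : ∑ s, m s • γ s = 0) :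
    ∃ π : A ≃ B, ∀ s, {a | α a + β (π a) = γ s}.ncard = m s := by
  classical
  letI : Fintype G := Fintype.ofEquiv S γ
  have hcard : Fintype.card (Σ s : S, Fin (m s)) = Fintype.card G := by
    rw [Fintype.card_sigma, ← Fintype.card_congr γ, ← Nat.card_eq_fintype_card (α := S), ← hm]
    simp
  obtain ⟨f, g, hfg⟩ := hall (G := G) hcard (fun i => γ i.1) (by
    rw [Fintype.sum_sigma, ← h0]
    refine Finset.sum_congr rfl fun s _ => ?_
    simp)
  refine ⟨((((α.trans (Equiv.neg G)).trans f.symm).trans g).trans β.symm), fun s => ?_⟩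
  have key : ∀ a, α a + β (((((α.trans (Equiv.neg G)).trans f.symm).trans g).trans β.symm) a) =
      γ (f.symm (-α a)).1 := by
    intro a
    have h1 : g (f.symm (-α a)) - f (f.symm (-α a)) = γ (f.symm (-α a)).1 := hfg (f.symm (-α a))
    rw [Equiv.apply_symm_apply] at h1
    simp only [Equiv.trans_apply, Equiv.apply_symm_apply, Equiv.neg_apply]
    rw [← h1]; abel
  have h1 : {a | α a + β (((((α.trans (Equiv.neg G)).trans f.symm).trans g).trans β.symm) a) = γ s} =
      (fun a => f.symm (-α a)) ⁻¹' {i | i.1 = s} := by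
    ext a
    show _ = _ ↔ (f.symm (-α a)).1 = s
    rw [key a, γ.apply_eq_iff_eq]
  have h2 : (fun a => f.symm (-α a)) = ⇑((α.trans (Equiv.neg G)).trans f.symm) := by
    funext a; simp
  rw [h1, h2]
  have h3 : (⇑((α.trans (Equiv.neg G)).trans f.symm) ⁻¹' {i | i.1 = s}) =
      ((α.trans (Equiv.neg G)).trans f.symm).symm '' {i : Σ s : S, Fin (m s) | i.1 = s} := by
    rw [Equiv.image_symm_eq_preimage]
  rw [h3, Set.ncard_image_of_injective _ (Equiv.injective _)]
  have h4 : {i : Σ s : S, Fin (m s) | i.1 = s} = (fun k : Fin (m s) => (⟨s, k⟩ : Σ s : S, Fin (m s))) '' Set.univ := by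
    ext ⟨t, k⟩
    rw [Set.image_univ]
    constructor
    · rintro rfl
      exact ⟨k, rfl⟩
    · rintro ⟨k', hk⟩
      exact (Sigma.mk.inj_iff.1 hk).1.symm
  have h5 : Function.Injective (fun k : Fin (m s) => (⟨s, k⟩ : Σ s : S, Fin (m s))) :=
    fun a b h => eq_of_heq (Sigma.mk.inj_iff.1 h).2
  rw [h4, Set.ncard_image_of_injective _ h5, Set.ncard_univ, Nat.card_eq_fintype_card, Fintype.card_fin]

end Pool.Agent.Duplex38
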