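import Pool.Agent.Duplex38.Defs
import Pool.Agent.Duplex38.Realise

/-!
# Good pairs of tables
-/

open Finset

namespace Pool.Agent.Duplex38

/-! ### A common 2-colouring of two perfect matchings -/

/-- two perfect matchings (fixed point free involutions) of a finite set have a common 2-colouring -/
theorem two_colour {S : Type*} [Finite S] (M N : Equiv.Perm S) (hM : ∀ x, M (M x) = x) (hN : ∀ x, N (N x) = x)
    (hM0 : ∀ x, M x ≠ x) (hN0 : ∀ x, N x ≠ x) :
    ∃ P : Set S, (∀ x, x ∈ P ↔ M x ∉ P) ∧ ∀ x, x ∈ P ↔ N x ∉ P := by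
  classical
  set ρ : Equiv.Perm S := M * N with hρ
  have hρa : ∀ x, ρ x = M (N x) := fun x => rfl
  -- `M (ρ ^ j x) = ρ ^ (-j) (M x)`
  have hconj : ∀ (j : ℕ) (x : S), (ρ ^ j) (M ((ρ ^ j) x)) = M x := by
    intro j
    induction j with
    | zero => intro x; rfl
    | succ j ih =>
      intro x
      have h1 : (ρ ^ (j + 1)) x = ρ ((ρ ^ j) x) := by rw [pow_succ', Equiv.Perm.mul_apply]
      have h2 : ∀ y, (ρ ^ (j + 1)) y = (ρ ^ j) (ρ y) := fun y => by rw [pow_succ, Equiv.Perm.mul_apply]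
      rw [h2, h1, hρa ((ρ ^ j) x), hM, hρa, hN, ih]
  -- no cycle of `ρ` contains `x` and `M x`
  have hns : ∀ x, ¬ ρ.SameCycle x (M x) := by
    intro x h
    obtain ⟨k, hk⟩ := h.exists_nat_pow_eq
    rcases Nat.even_or_odd' k with ⟨j, rfl | rfl⟩
    · have h1 : (ρ ^ j) ((ρ ^ j) x) = (ρ ^ j) (M ((ρ ^ j) x)) := by
        rw [hconj, ← hk, ← Equiv.Perm.mul_apply, ← pow_add, two_mul]
      exact hM0 _ ((ρ ^ j).injective h1).symm
    · have h1 : (ρ ^ j) (ρ ((ρ ^ j) x)) = (ρ ^ j) (M ((ρ ^ j) x)) := by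
        rw [hconj, ← hk, ← Equiv.Perm.mul_apply, ← Equiv.Perm.mul_apply, ← pow_succ, ← pow_add]
        congr 2; ring
      have h2 := (ρ ^ j).injective h1
      rw [hρa] at h2
      exact hN0 _ (M.injective h2)
  have hMρ : ∀ x, ρ.SameCycle (M x) (N x) := by
    intro x
    have h1 : ρ (N x) = M x := by rw [hρa, hN]
    exact ⟨-1, by rw [← h1]; simp⟩
  obtain ⟨n, ⟨e⟩⟩ := Finite.exists_equiv_fin (Quotient (Equiv.Perm.SameCycle.setoid ρ))
  set κ : S → Fin n := fun x => e (Quotient.mk _ x) with hκ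
  have hκi : ∀ x y, κ x = κ y ↔ ρ.SameCycle x y := by
    intro x y
    rw [hκ]
    simp only [EmbeddingLike.apply_eq_iff_eq]
    exact Quotient.eq
  have k1 : ∀ x, κ (M x) ≠ κ x := fun x h => hns x ((hκi _ _).1 h).symm
  have k2 : ∀ x, κ (N x) = κ (M x) := fun x => (hκi _ _).2 (hMρ x).symm
  have k3 : ∀ x, κ (M (N x)) = κ x := fun x => (hκi _ _).2 ⟨-1, by rw [← hρa]; simp⟩
  refine ⟨{x | κ x < κ (M x)}, fun x => ?_, fun x => ?_⟩
  · show κ x < κ (M x) ↔ ¬ κ (M x) < κ (M (M x))
    rw [hM, not_lt]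
    exact ⟨le_of_lt, fun h => lt_of_le_of_ne h (k1 x).symm⟩
  · show κ x < κ (M x) ↔ ¬ κ (N x) < κ (M (N x))
    rw [k3, k2, not_lt]
    exact ⟨le_of_lt, fun h => lt_of_le_of_ne h (k1 x).symm⟩

/-! ### The sum of the elements of a finite abelian group -/

section sums

variable {G S : Type*} [AddCommGroup G] [Fintype S]

theorem two_nsmul_sum (γ : S ≃ G) : 2 • ∑ s, γ s = 0 := by
  classical
  let _ : Fintype G := Fintype.ofEquiv S γ
  have h1 : ∑ s, γ s = ∑ x : G, x := Equiv.sum_comp γ (fun x => x)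
  have h2 : ∑ x : G, x = ∑ x : G, -x := (Equiv.sum_comp (Equiv.neg G) (fun x => x)).symm
  have h3 : ∑ x : G, x = -∑ x : G, x := by
    conv_lhs => rw [h2]
    rw [Finset.sum_neg_distrib]
  rw [h1, two_nsmul]
  nth_rewrite 1 [h3]
  exact neg_add_cancel _

omit [Fintype S] in
theorem card_nsmul (γ : S ≃ G) (x : G) : Nat.card S • x = 0 := by
  rw [Nat.card_congr γ]
  exact card_nsmul_eq_zero'

theorem gcd_nsmul {a b : ℕ} {x : G} (ha : a • x = 0) (hb : b • x = 0) : Nat.gcd a b • x = 0 :=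
  (addOrderOf_dvd_iff_nsmul_eq_zero).1
    (Nat.dvd_gcd (addOrderOf_dvd_of_nsmul_eq_zero ha) (addOrderOf_dvd_of_nsmul_eq_zero hb))

theorem sum_odd (γ : S ≃ G) (h : Odd (Nat.card S)) : ∑ s, γ s = 0 := by
  have h1 := gcd_nsmul (two_nsmul_sum γ) (card_nsmul γ (∑ s, γ s))
  rwa [(Nat.coprime_two_left.2 h).gcd_eq_one, one_nsmul] at h1

/-- half of the elements, one in each coset of an involution, in a group of order `2 q`, `q` odd -/
theorem half_sum [DecidableEq S] (γ : S ≃ G) {q : ℕ} (hq : Odd q) (hcard : Nat.card S = 2 * q) (M : Equiv.Perm S) {τ : G}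
    (hτ : 2 • τ = 0) (hM : ∀ x, γ (M x) = γ x + τ) (P : Finset S) (hP : ∀ x, x ∈ P ↔ M x ∉ P) :
    P.card = q ∧ 2 • ∑ x ∈ P, γ x = 0 := by
  classical
  have hMM : ∀ x, M (M x) = x := fun x => γ.injective (by
    rw [hM, hM, add_assoc, ← two_nsmul, hτ, add_zero])
  have hc : Pᶜ = P.map M.toEmbedding := by
    ext x
    rw [Finset.mem_compl, Finset.mem_map_equiv]
    have h1 : M.symm x = M x := by rw [Equiv.symm_apply_eq, hMM]
    rw [h1, hP (M x), hMM]
  have hcard1 : Pᶜ.card = P.card := by rw [hc, Finset.card_map]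
  have hq1 : P.card = q := by
    have h2 := Finset.card_add_card_compl P
    rw [hcard1, ← Nat.card_eq_fintype_card, hcard] at h2
    omega
  refine ⟨hq1, ?_⟩
  have h3 : ∑ x ∈ Pᶜ, γ x = ∑ x ∈ P, γ x + q • τ := by
    rw [hc, Finset.sum_map]
    have : ∀ x ∈ P, γ (M.toEmbedding x) = γ x + τ := fun x _ => hM x
    rw [Finset.sum_congr rfl this, Finset.sum_add_distrib, Finset.sum_const, hq1]
  have h4 := Finset.sum_add_sum_compl P (fun x => γ x)
  rw [h3] at h4
  have h5 : 4 • ∑ x ∈ P, γ x = 0 := by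
    have h6 := two_nsmul_sum γ
    rw [← h4] at h6
    have h7 : 2 • (∑ x ∈ P, γ x + (∑ x ∈ P, γ x + q • τ)) = 4 • ∑ x ∈ P, γ x + q • (2 • τ) := by
      rw [← mul_nsmul, mul_comm, mul_nsmul]; abel
    rw [h7, hτ, nsmul_zero, add_zero] at h6
    exact h6
  have h8 := gcd_nsmul h5 (card_nsmul γ (∑ x ∈ P, γ x))
  rw [hcard] at h8
  have h9 : Nat.gcd 4 (2 * q) = 2 := by
    have : Nat.gcd (2 * 2) (2 * q) = 2 * Nat.gcd 2 q := Nat.gcd_mul_left 2 2 q
    rw [(Nat.coprime_two_left.2 hq).gcd_eq_one] at this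
    exact this
  rwa [h9] at h8

end sums

/-! ### The three kinds of good pairs -/

variable {A B A₁ B₁ S : Type*}

theorem count_of_bij {π : A → S} (h : Function.Bijective π) (s : S) : {a | π a = s}.ncard = 1 := by
  obtain ⟨a, ha⟩ := h.2 s
  have : {a | π a = s} = {a} := by
    ext b
    exact ⟨fun hb => h.1 ((show π b = s from hb).trans ha.symm), fun hb => by rw [show b = a from hb]; exact ha⟩
  rw [this, Set.ncard_singleton]

theorem pair_of_transversals {T : A → B → S} {T₁ : A₁ → B₁ → S} (h : HasTransversal T) (h₁ : HasTransversal T₁) :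
    Pair T T₁ := by
  obtain ⟨π, hπ⟩ := h
  obtain ⟨π₁, hπ₁⟩ := h₁
  exact ⟨π, π₁, fun s => by rw [count_of_bij hπ, count_of_bij hπ₁]⟩

/-- counts in an abelian isotope -/
theorem realise' [Fintype S] {G : Type*} [AddCommGroup G] {T : A → B → S} {α : A ≃ G} {β : B ≃ G} {γ : S ≃ G}
    (hT : ∀ a b, γ (T a b) = α a + β b) (m : S → ℕ) (hm : ∑ s, m s = Nat.card S) (h0 : ∑ s, m s • γ s = 0) :
    ∃ π : A ≃ B, ∀ s, {a | T a (π a) = s}.ncard = m s := by
  obtain ⟨π, hπ⟩ := realise α β γ m hm h0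
  refine ⟨π, fun s => ?_⟩
  rw [← hπ s]
  congr 1
  ext a
  show T a (π a) = s ↔ α a + β (π a) = γ s
  rw [← hT, γ.apply_eq_iff_eq]

theorem pair_of_abelian [Finite S] {T : A → B → S} {T₁ : A₁ → B₁ → S} (h4 : ¬ 4 ∣ Nat.card S)
    (h : AbelianIsotope T) (h₁ : AbelianIsotope T₁) : Pair T T₁ := by
  classical
  cases nonempty_fintype S
  obtain ⟨G, _, α, β, γ, hT⟩ := h
  obtain ⟨G₁, _, α₁, β₁, γ₁, hT₁⟩ := h₁
  rcases Nat.even_or_odd (Nat.card S) with ⟨q, hq⟩ | hodd
  · -- `z = 2 q`, `q` odd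
    have hz : Nat.card S = 2 * q := by omega
    have hqodd : Odd q := by
      rcases Nat.even_or_odd q with ⟨j, hj⟩ | h
      · exact absurd ⟨j, by omega⟩ h4
      · exact h
    have hinv : ∀ (H : Type) [AddCommGroup H] (δ : S ≃ H), ∃ τ : H, τ ≠ 0 ∧ 2 • τ = 0 := by
      intro H _ δ
      have : Finite H := Finite.of_equiv S δ
      let _ : Fintype H := Fintype.ofFinite H
      have : Fact (Nat.Prime 2) := ⟨Nat.prime_two⟩
      have hd : 2 ∣ Nat.card H := by rw [← Nat.card_congr δ, hz]; exact Dvd.intro _ rfl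
      obtain ⟨τ, hτ⟩ := exists_prime_addOrderOf_dvd_card' (G := H) 2 hd
      refine ⟨τ, fun h => ?_, by rw [← hτ]; exact addOrderOf_nsmul_eq_zero τ⟩
      rw [h, addOrderOf_zero] at hτ
      omega
    obtain ⟨τ, hτ0, hτ⟩ := hinv G γ
    obtain ⟨τ₁, hτ10, hτ1⟩ := hinv G₁ γ₁
    set M : Equiv.Perm S := (γ.trans (Equiv.addRight τ)).trans γ.symm with hM
    set N : Equiv.Perm S := (γ₁.trans (Equiv.addRight τ₁)).trans γ₁.symm with hN
    have hMa : ∀ x, γ (M x) = γ x + τ := fun x => by simp [hM]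
    have hNa : ∀ x, γ₁ (N x) = γ₁ x + τ₁ := fun x => by simp [hN]
    have hMM : ∀ x, M (M x) = x := fun x => γ.injective (by
      rw [hMa, hMa, add_assoc, ← two_nsmul, hτ, add_zero])
    have hNN : ∀ x, N (N x) = x := fun x => γ₁.injective (by
      rw [hNa, hNa, add_assoc, ← two_nsmul, hτ1, add_zero])
    obtain ⟨P, hPM, hPN⟩ := two_colour M N hMM hNN
      (fun x h => hτ0 (by have := hMa x; rw [h] at this; exact left_eq_add.1 this))
      (fun x h => hτ10 (by have := hNa x; rw [h] at this; exact left_eq_add.1 this))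
    set P' : Finset S := univ.filter fun x => x ∈ P with hP'
    have e1 : ∀ x, x ∈ P' ↔ x ∈ P := fun x => by simp [hP']
    obtain ⟨c1, s1⟩ := half_sum γ hqodd hz M hτ hMa P' (fun x => by rw [e1, e1]; exact hPM x)
    obtain ⟨c2, s2⟩ := half_sum γ₁ hqodd hz N hτ1 hNa P'ᶜ (fun x => by
      rw [Finset.mem_compl, Finset.mem_compl, e1, e1, not_not]
      exact not_iff_comm.1 (hPN x).symm)
    obtain ⟨π, hπ⟩ := realise' hT (fun s => if s ∈ P' then 2 else 0)
      (by rw [Finset.sum_ite_mem]; simp only [Finset.univ_inter, Finset.sum_const, c1, smul_eq_mul]; omega)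
      (by simp only [ite_smul, zero_smul]
          rw [Finset.sum_ite_mem, Finset.univ_inter, ← Finset.smul_sum, s1])
    obtain ⟨π₁, hπ₁⟩ := realise' hT₁ (fun s => if s ∈ P'ᶜ then 2 else 0)
      (by rw [Finset.sum_ite_mem]; simp only [Finset.univ_inter, Finset.sum_const, c2, smul_eq_mul]; omega)
      (by simp only [ite_smul, zero_smul]
          rw [Finset.sum_ite_mem, Finset.univ_inter, ← Finset.smul_sum, s2])
    refine ⟨π, π₁, fun s => ?_⟩
    rw [hπ, hπ₁]
    by_cases hs : s ∈ P'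
    · simp [hs]
    · simp [hs]
  · -- `z` odd
    obtain ⟨π, hπ⟩ := realise' hT (fun _ => 1) (by simp) (by simpa using sum_odd γ hodd)
    obtain ⟨π₁, hπ₁⟩ := realise' hT₁ (fun _ => 1) (by simp) (by simpa using sum_odd γ₁ hodd)
    exact ⟨π, π₁, fun s => by rw [hπ, hπ₁]⟩

/-- a duplex of a table is the disjoint union of two generalised diagonals -/
theorem diagonals_of_duplex [Finite A] [Finite B] {T : A → B → S} {D : Set (A × B)} (hD : IsDuplex T D) :
    ∃ π₁ π₂ : A ≃ B, ∀ s, {a | T a (π₁ a) = s}.ncard + {a | T a (π₂ a) = s}.ncard = 2 := by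
  classical
  cases nonempty_fintype A
  cases nonempty_fintype B
  obtain ⟨h1, h2, h3⟩ := hD
  -- neighbourhoods
  set t : A → Finset B := fun a => univ.filter fun b => (a, b) ∈ D with ht
  set u : B → Finset A := fun b => univ.filter fun a => (a, b) ∈ D with hu
  have ht2 : ∀ a, (t a).card = 2 := by
    intro a
    rw [← h1 a, ← Set.ncard_coe_finset]
    congr 1
    ext b; simp [ht]
  have hu2 : ∀ b, (u b).card = 2 := by
    intro b
    rw [← h2 b, ← Set.ncard_coe_finset]
    congr 1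
    ext a; simp [hu]
  have htu : ∀ a b, b ∈ t a ↔ a ∈ u b := fun a b => by simp [ht, hu]
  have hcard : Fintype.card A = Fintype.card B := by
    have e1 : ∑ a : A, (t a).card = ∑ b : B, (u b).card := by
      simp only [ht, hu, Finset.card_filter]
      exact Finset.sum_comm
    simp only [ht2, hu2, Finset.sum_const, Finset.card_univ, smul_eq_mul] at e1
    omega
  obtain ⟨f, hf, hft⟩ := (Finset.all_card_le_biUnion_card_iff_exists_injective t).1 (by
    intro s
    have e1 : ∑ a ∈ s, (t a).card ≤ ∑ b ∈ s.biUnion t, (u b).card := by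
      have e2 : ∀ a ∈ s, (t a).card = ∑ b ∈ s.biUnion t, if b ∈ t a then 1 else 0 := by
        intro a ha
        rw [Finset.sum_ite_mem, Finset.sum_const, smul_eq_mul, mul_one]
        congr 1
        exact (Finset.inter_eq_right.2 (Finset.subset_biUnion_of_mem t ha)).symm
      rw [Finset.sum_congr rfl e2, Finset.sum_comm]
      refine Finset.sum_le_sum fun b _ => ?_
      rw [← Finset.card_filter]
      refine Finset.card_le_card fun a ha => ?_
      exact (htu a b).1 (Finset.mem_filter.1 ha).2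
    simp only [ht2, hu2, Finset.sum_const, smul_eq_mul] at e1
    omega)
  have hfb : Function.Bijective f := (Fintype.bijective_iff_injective_and_card f).2 ⟨hf, hcard⟩
  set π₁ : A ≃ B := Equiv.ofBijective f hfb with hπ₁
  have hπ1 : ∀ a, π₁ a ∈ t a := hft
  -- the other neighbour
  have hex : ∀ a, ∃ b, b ≠ π₁ a ∧ t a = {π₁ a, b} := by
    intro a
    obtain ⟨x, y, hxy, hxy'⟩ := Finset.card_eq_two.1 (ht2 a)
    have := hπ1 a
    rw [hxy', Finset.mem_insert, Finset.mem_singleton] at this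
    rcases this with h | h
    · exact ⟨y, by rw [h]; exact hxy.symm, by rw [h]; exact hxy'⟩
    · exact ⟨x, by rw [h]; exact hxy, by rw [h, hxy', Finset.pair_comm]⟩
  choose g hg1 hg2 using hex
  have hgt : ∀ a, g a ∈ t a := fun a => by rw [hg2]; simp
  have hgi : Function.Injective g := by
    intro a a' haa
    by_contra hne
    -- the column `g a` contains `a`, `a'` and the row matched with it by `π₁`
    set b := g a with hb
    obtain ⟨a'', ha''⟩ := π₁.surjective b
    have m1 : a ∈ u b := (htu a b).1 (hgt a)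
    have m2 : a' ∈ u b := (htu a' b).1 (haa ▸ hgt a')
    have m3 : a'' ∈ u b := (htu a'' b).1 (ha'' ▸ hπ1 a'')
    have n1 : a'' ≠ a := fun h => hg1 a (by rw [← h, ha'', hb, h])
    have n2 : a'' ≠ a' := fun h => hg1 a' (by rw [← haa, ← ha'', h])
    have : ({a, a', a''} : Finset A).card ≤ (u b).card := Finset.card_le_card (by
      intro x hx
      simp only [Finset.mem_insert, Finset.mem_singleton] at hx
      rcases hx with rfl | rfl | rfl <;> assumption)
    rw [hu2, Finset.card_eq_three.2 ⟨a, a', a'', hne, n1.symm, n2.symm, rfl⟩] at this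
    omega
  have hgb : Function.Bijective g := (Fintype.bijective_iff_injective_and_card g).2 ⟨hgi, hcard⟩
  set π₂ : A ≃ B := Equiv.ofBijective g hgb with hπ₂
  refine ⟨π₁, π₂, fun s => ?_⟩
  have hD : {x | x ∈ D ∧ T x.1 x.2 = s} = (fun a => (a, π₁ a)) '' {a | T a (π₁ a) = s} ∪
      (fun a => (a, π₂ a)) '' {a | T a (π₂ a) = s} := by
    ext ⟨a, b⟩
    constructor
    · rintro ⟨hd, hs⟩
      have hbt : b ∈ t a := by simpa [ht] using hd
      rw [hg2 a, Finset.mem_insert, Finset.mem_singleton] at hbt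
      rcases hbt with rfl | rfl
      · exact Or.inl ⟨a, hs, rfl⟩
      · exact Or.inr ⟨a, hs, rfl⟩
    · rintro (⟨a', ha', he⟩ | ⟨a', ha', he⟩)
      · obtain ⟨rfl, rfl⟩ := Prod.mk_inj.1 he
        exact ⟨by simpa [ht] using hπ1 a', ha'⟩
      · obtain ⟨rfl, rfl⟩ := Prod.mk_inj.1 he
        exact ⟨(Finset.mem_filter.1 (hgt a')).2, ha'⟩
  have hdisj : Disjoint ((fun a => (a, π₁ a)) '' {a | T a (π₁ a) = s}) ((fun a => (a, π₂ a)) '' {a | T a (π₂ a) = s}) := by
    rw [Set.disjoint_left]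
    rintro _ ⟨a, _, rfl⟩ ⟨a', _, he⟩
    obtain ⟨rfl, he⟩ := Prod.mk_inj.1 he
    exact hg1 a' he
  have h4 := h3 s
  rw [hD, Set.ncard_union_eq hdisj (Set.toFinite _) (Set.toFinite _),
    Set.ncard_image_of_injective _ (fun a b h => (Prod.mk_inj.1 h).1),
    Set.ncard_image_of_injective _ (fun a b h => (Prod.mk_inj.1 h).1)] at h4
  exact h4

theorem pair_of_rowCol [Finite A] [Finite B] {T : A → B → S} {T₁ : A₁ → B₁ → S} (h : ∃ D, IsDuplex T D)
    (h₁ : RowColEquiv T T₁) : Pair T T₁ := by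
  obtain ⟨D, hD⟩ := h
  obtain ⟨α, β, hαβ⟩ := h₁
  obtain ⟨π₁, π₂, hπ⟩ := diagonals_of_duplex hD
  refine ⟨π₁, (α.trans π₂).trans β.symm, fun s => ?_⟩
  rw [← hπ s]
  congr 1
  have : {a | T₁ a (((α.trans π₂).trans β.symm) a) = s} = α ⁻¹' {a | T a (π₂ a) = s} := by
    ext a
    show T₁ a (((α.trans π₂).trans β.symm) a) = s ↔ T (α a) (π₂ (α a)) = s
    rw [hαβ]; simp
  rw [this, ← Equiv.image_symm_eq_preimage, Set.ncard_image_of_injective _ (Equiv.injective _)]

/-- good pairs satisfy the local condition (tables of order at most `3` being treated separately) -/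
theorem GoodPair.pair [Finite A] [Finite B] [Finite S] {T : A → B → S} {T₁ : A₁ → B₁ → S} (h : GoodPair T T₁)
    (h3 : Nat.card S ≤ 3 → AbelianIsotope T ∧ AbelianIsotope T₁) : Pair T T₁ := by
  rcases h with h | ⟨h, h₁⟩ | ⟨h4, h, h₁⟩ | ⟨h, h₁⟩
  · have h' := h3 h
    obtain ⟨G, _, α, _, γ, _⟩ := h'.1
    have hpos : 0 < Nat.card S := by
      have : Nonempty S := ⟨γ.symm 0⟩
      exact Nat.card_pos
    exact pair_of_abelian (fun h4 => by have := Nat.le_of_dvd hpos h4; omega) h'.1 h'.2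
  · exact pair_of_transversals h h₁
  · exact pair_of_abelian h4 h h₁
  · exact pair_of_rowCol h h₁

/-! ### Abelian groups have duplexes -/

theorem duplex_of_diagonals [Finite A] [Finite B] {T : A → B → S} (π₁ π₂ : A ≃ B) (hne : ∀ a, π₁ a ≠ π₂ a)
    (h : ∀ s, {a | T a (π₁ a) = s}.ncard + {a | T a (π₂ a) = s}.ncard = 2) : ∃ D, IsDuplex T D := by
  refine ⟨{x | π₁ x.1 = x.2 ∨ π₂ x.1 = x.2}, fun a => ?_, fun b => ?_, fun s => ?_⟩
  · have : {b | (a, b) ∈ {x : A × B | π₁ x.1 = x.2 ∨ π₂ x.1 = x.2}} = {π₁ a, π₂ a} := by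
      ext b
      show π₁ a = b ∨ π₂ a = b ↔ b = π₁ a ∨ b = π₂ a
      rw [eq_comm (a := b), eq_comm (a := b)]
    rw [this, Set.ncard_pair (hne a)]
  · have : {a | (a, b) ∈ {x : A × B | π₁ x.1 = x.2 ∨ π₂ x.1 = x.2}} = {π₁.symm b, π₂.symm b} := by
      ext a
      show π₁ a = b ∨ π₂ a = b ↔ a = π₁.symm b ∨ a = π₂.symm b
      rw [Equiv.eq_symm_apply, Equiv.eq_symm_apply]
    rw [this, Set.ncard_pair (fun h => hne (π₁.symm b) (by rw [Equiv.apply_symm_apply, h, Equiv.apply_symm_apply]))]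
  · rw [← h s]
    have hD : {x | x ∈ {x : A × B | π₁ x.1 = x.2 ∨ π₂ x.1 = x.2} ∧ T x.1 x.2 = s} =
        (fun a => (a, π₁ a)) '' {a | T a (π₁ a) = s} ∪ (fun a => (a, π₂ a)) '' {a | T a (π₂ a) = s} := by
      ext ⟨a, b⟩
      constructor
      · rintro ⟨hd | hd, hs⟩
        · exact Or.inl ⟨a, by rw [← hd] at hs; exact hs, Prod.ext rfl hd⟩
        · exact Or.inr ⟨a, by rw [← hd] at hs; exact hs, Prod.ext rfl hd⟩
      · rintro (⟨a', ha', he⟩ | ⟨a', ha', he⟩)
        · obtain ⟨rfl, rfl⟩ := Prod.mk_inj.1 he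
          exact ⟨Or.inl rfl, ha'⟩
        · obtain ⟨rfl, rfl⟩ := Prod.mk_inj.1 he
          exact ⟨Or.inr rfl, ha'⟩
    have hdisj : Disjoint ((fun a => (a, π₁ a)) '' {a | T a (π₁ a) = s})
        ((fun a => (a, π₂ a)) '' {a | T a (π₂ a) = s}) := by
      rw [Set.disjoint_left]
      rintro _ ⟨a, _, rfl⟩ ⟨a', _, he⟩
      obtain ⟨rfl, he⟩ := Prod.mk_inj.1 he
      exact hne a' he.symm
    rw [hD, Set.ncard_union_eq hdisj (Set.toFinite _) (Set.toFinite _),
      Set.ncard_image_of_injective _ (fun a b h => (Prod.mk_inj.1 h).1),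
      Set.ncard_image_of_injective _ (fun a b h => (Prod.mk_inj.1 h).1)]

/-- an isotope of an abelian group of order at least `2` has a duplex -/
theorem duplex_of_abelian [Finite S] {T : A → B → S} (h2 : 2 ≤ Nat.card S) (h : AbelianIsotope T) :
    ∃ D, IsDuplex T D := by
  classical
  cases nonempty_fintype S
  obtain ⟨G, _, α, β, γ, hT⟩ := h
  have hA : Finite A := Finite.of_equiv S (γ.trans α.symm)
  have hB : Finite B := Finite.of_equiv S (γ.trans β.symm)
  set σ : G := ∑ s, γ s with hσ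
  have h2σ : 2 • σ = 0 := two_nsmul_sum γ
  -- a generalised diagonal `π` and a shift `c ≠ 0` with the two count functions
  obtain ⟨c, hc, π, hπ⟩ : ∃ c : G, c ≠ 0 ∧ ∃ π : A ≃ B, ∀ s, {a | T a (π a) = s}.ncard +
      {a | T a (π a) = γ.symm (γ s - c)}.ncard = 2 := by
    by_cases h0 : σ = 0
    · obtain ⟨π, hπ⟩ := realise' hT (fun _ => 1) (by simp) (by simpa using h0)
      have hG : Nontrivial G := by
        have : 1 < Nat.card G := by rw [← Nat.card_congr γ]; omega
        have hfin : Finite G := Finite.of_equiv S γ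
        exact Finite.one_lt_card_iff_nontrivial.1 this
      obtain ⟨c, hc⟩ := exists_ne (0 : G)
      exact ⟨c, hc, π, fun s => by rw [hπ, hπ]⟩
    · set s0 := γ.symm 0 with hs0
      set s1 := γ.symm σ with hs1
      have hne : s0 ≠ s1 := fun h => h0 (γ.symm.injective h).symm
      set m : S → ℕ := fun s => if s = s0 then 0 else if s = s1 then 2 else 1 with hm
      have hm0 : m s0 = 0 := by simp [hm]
      have hm1 : m s1 = 2 := by simp [hm, hne.symm]
      have hm2 : ∀ s, s ≠ s0 → s ≠ s1 → m s = 1 := fun s h h' => by simp [hm, h, h']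
      have hsum : ∑ s, m s = Nat.card S := by
        rw [Nat.card_eq_fintype_card, ← Finset.card_univ, Finset.card_eq_sum_ones,
          ← Finset.add_sum_erase univ m (Finset.mem_univ s0),
          ← Finset.add_sum_erase (univ.erase s0) m (Finset.mem_erase.2 ⟨hne.symm, Finset.mem_univ s1⟩),
          ← Finset.add_sum_erase univ (fun _ => 1) (Finset.mem_univ s0),
          ← Finset.add_sum_erase (univ.erase s0) (fun _ => 1) (Finset.mem_erase.2 ⟨hne.symm, Finset.mem_univ s1⟩),
          hm0, hm1]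
        have : ∑ x ∈ (univ.erase s0).erase s1, m x = ∑ x ∈ (univ.erase s0).erase s1, 1 :=
          Finset.sum_congr rfl fun x hx => hm2 x (Finset.ne_of_mem_erase (Finset.mem_of_mem_erase hx))
            (Finset.ne_of_mem_erase hx)
        rw [this]; omega
      have hsum0 : ∑ s, m s • γ s = 0 := by
        have e1 : ∑ s, m s • γ s = ∑ s, γ s + γ s1 - γ s0 := by
          rw [← Finset.add_sum_erase univ _ (Finset.mem_univ s0),
            ← Finset.add_sum_erase (univ.erase s0) _ (Finset.mem_erase.2 ⟨hne.symm, Finset.mem_univ s1⟩),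
            ← Finset.add_sum_erase univ (fun s => γ s) (Finset.mem_univ s0),
            ← Finset.add_sum_erase (univ.erase s0) (fun s => γ s) (Finset.mem_erase.2 ⟨hne.symm, Finset.mem_univ s1⟩),
            hm0, hm1]
          have : ∑ x ∈ (univ.erase s0).erase s1, m x • γ x = ∑ x ∈ (univ.erase s0).erase s1, γ x :=
            Finset.sum_congr rfl fun x hx => by
              rw [hm2 x (Finset.ne_of_mem_erase (Finset.mem_of_mem_erase hx)) (Finset.ne_of_mem_erase hx), one_nsmul]
          rw [this, zero_nsmul]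
          abel
        have e2 : γ s1 = σ := by rw [hs1, Equiv.apply_symm_apply]
        have e3 : γ s0 = 0 := by rw [hs0, Equiv.apply_symm_apply]
        rw [e1, e2, e3, ← hσ, sub_zero, ← two_nsmul, h2σ]
      obtain ⟨π, hπ⟩ := realise' hT m hsum hsum0
      refine ⟨σ, h0, π, fun s => ?_⟩
      rw [hπ, hπ]
      by_cases e0 : s = s0
      · have : γ.symm (γ s - σ) = s1 := by
          rw [e0, hs0, Equiv.apply_symm_apply, zero_sub, hs1]
          congr 1
          rw [neg_eq_iff_add_eq_zero, ← two_nsmul, h2σ]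
        rw [this, e0, hm0, hm1]
      · by_cases e1 : s = s1
        · have : γ.symm (γ s - σ) = s0 := by
            rw [e1, hs1, Equiv.apply_symm_apply, sub_self]
          rw [this, e1, hm0, hm1]
        · rw [hm2 s e0 e1, hm2]
          · intro h
            refine e1 ?_
            rw [hs1, Equiv.eq_symm_apply]
            have := congrArg γ h
            rw [Equiv.apply_symm_apply, hs0, Equiv.apply_symm_apply, sub_eq_zero] at this
            exact this
          · intro h
            refine e0 ?_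
            rw [hs0, Equiv.eq_symm_apply]
            have := congrArg γ h
            rw [Equiv.apply_symm_apply, hs1, Equiv.apply_symm_apply] at this
            rw [sub_eq_iff_eq_add, ← two_nsmul, h2σ] at this
            exact this
  refine duplex_of_diagonals π ((π.trans β).trans ((Equiv.addRight c).trans β.symm)) (fun a h => hc ?_) fun s => ?_
  · have := congrArg β h
    simp only [Equiv.trans_apply, Equiv.apply_symm_apply, Equiv.coe_addRight] at this
    exact left_eq_add.1 this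
  · rw [← hπ s]
    congr 2
    ext a
    show T a (((π.trans β).trans ((Equiv.addRight c).trans β.symm)) a) = s ↔ T a (π a) = γ.symm (γ s - c)
    rw [Equiv.eq_symm_apply, hT, ← γ.apply_eq_iff_eq, hT, eq_sub_iff_add_eq]
    simp [add_assoc]

end Pool.Agent.Duplex38
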