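import Pool.Agent.Duplex38.Small

/-!
# The lifting theorem and the class it generates
-/

namespace Pool.Agent.Duplex38

variable {R C S R' C' S' : Type*}

/-- the two blocks over any two cells of `D` with the same symbol form a good pair -/
def GoodOn {L : R → C → S} {L' : R' → C' → S'} (h : Epi L L') (D : Set (R' × C')) : Prop :=
  ∀ (r₁ : R') (c₁ : C') (r₂ : R') (c₂ : C') (s : S') (h₁ : L' r₁ c₁ = s) (h₂ : L' r₂ c₂ = s),
    (r₁, c₁) ∈ D → (r₂, c₂) ∈ D → (r₁, c₁) ≠ (r₂, c₂) → GoodPair (h.block h₁) (h.block h₂)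

/-- the lifting theorem -/
theorem lift_of_good [Finite R] [Finite C] [Finite S] [Finite R'] [Finite C'] {L : R → C → S} {L' : R' → C' → S'}
    (hL : IsLatin L) (hL' : IsLatin L') (h : Epi L L') {D : Set (R' × C')} (hD : IsDuplex L' D) (hp : GoodOn h D) :
    ∃ D₁, IsDuplex L D₁ := by
  refine lift_duplex h hD fun r₁ c₁ r₂ c₂ s h₁ h₂ m₁ m₂ hne => (hp r₁ c₁ r₂ c₂ s h₁ h₂ m₁ m₂ hne).pair fun h3 => ?_
  obtain ⟨x, hx⟩ := h.sym_surj s
  have n0 : Nonempty {x // h.sym x = s} := ⟨⟨x, hx⟩⟩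
  obtain ⟨a₁, ha₁⟩ := h.row_surj r₁
  obtain ⟨a₂, ha₂⟩ := h.row_surj r₂
  have n1 : Nonempty {r // h.row r = r₁} := ⟨⟨a₁, ha₁⟩⟩
  have n2 : Nonempty {r // h.row r = r₂} := ⟨⟨a₂, ha₂⟩⟩
  exact ⟨abelian_le_three (block_isLatin hL hL' h h₁) h3, abelian_le_three (block_isLatin hL hL' h h₂) h3⟩

/-- the latin squares obtained from isotopes of abelian groups of order at least `2` by good extensions -/
inductive Tower : ∀ {R C S : Type}, (R → C → S) → Prop
  | base {R C S : Type} (L : R → C → S) : Finite S → 2 ≤ Nat.card S → AbelianIsotope L → Tower L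
  | step {R C S R' C' S' : Type} (L : R → C → S) (L' : R' → C' → S') (h : Epi L L') : Finite R → Finite C → Finite S →
      IsLatin L → GoodOn h Set.univ → Tower L' → Tower L

theorem GoodOn.mono {L : R → C → S} {L' : R' → C' → S'} {h : Epi L L'} {D : Set (R' × C')} (hg : GoodOn h Set.univ) :
    GoodOn h D :=
  fun r₁ c₁ r₂ c₂ s h₁ h₂ _ _ hne => hg r₁ c₁ r₂ c₂ s h₁ h₂ (Set.mem_univ _) (Set.mem_univ _) hne

theorem Tower.spec {R C S : Type} {L : R → C → S} (h : Tower L) :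
    Finite R ∧ Finite C ∧ Finite S ∧ IsLatin L ∧ ∃ D, IsDuplex L D := by
  induction h with
  | base L hfin h2 hab =>
    have hab' := hab
    obtain ⟨G, _, α, β, γ, _⟩ := hab'
    exact ⟨Finite.of_equiv _ (γ.trans α.symm), Finite.of_equiv _ (γ.trans β.symm), hfin, isLatin_of_abelian hab,
      duplex_of_abelian h2 hab⟩
  | step L L' h hR hC hS hL hg _ ih =>
    obtain ⟨i1, i2, i3, i4, D, hD⟩ := ih
    exact ⟨hR, hC, hS, hL, lift_of_good hL i4 h hD hg.mono⟩

end Pool.Agent.Duplex38
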