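import Pool.Agent.Duplex38.Lift

/-!
# Blocks of an epimorphism of latin squares, and latin squares of order at most 3
-/

open Finset

namespace Pool.Agent.Duplex38

variable {R C S R' C' S' A B : Type*}

/-- the blocks of an epimorphism of latin squares are latin squares -/
theorem block_isLatin {L : R → C → S} {L' : R' → C' → S'} (hL : IsLatin L) (hL' : IsLatin L') (h : Epi L L')
    {r' : R'} {c' : C'} {s' : S'} (hs : L' r' c' = s') : IsLatin (h.block hs) := by
  constructor
  · intro a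
    constructor
    · intro b b' hbb
      exact Subtype.ext ((hL.1 a).1 (congrArg Subtype.val hbb))
    · rintro ⟨s, hs'⟩
      obtain ⟨c, hc⟩ := (hL.1 a).2 s
      have hcol : h.col c = c' := by
        refine (hL'.1 r').1 ?_
        show L' r' (h.col c) = L' r' c'
        rw [hs, ← hs', ← hc, h.map, a.2]
      exact ⟨⟨c, hcol⟩, Subtype.ext hc⟩
  · intro b
    constructor
    · intro a a' haa
      exact Subtype.ext ((hL.2 b).1 (congrArg Subtype.val haa))
    · rintro ⟨s, hs'⟩
      obtain ⟨r, hr⟩ := (hL.2 b).2 s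
      have hrow : h.row r = r' := by
        refine (hL'.2 c').1 ?_
        show L' (h.row r) c' = L' r' c'
        rw [hs, ← hs', ← hr, h.map, b.2]
      exact ⟨⟨r, hrow⟩, Subtype.ext hr⟩

/-- all symbol fibres of an epimorphism of latin squares have the same size -/
theorem fibre_card [Nonempty R'] {L : R → C → S} {L' : R' → C' → S'} (hL : IsLatin L) (hL' : IsLatin L') (h : Epi L L')
    (s t : S') : Nat.card {x // h.sym x = s} = Nat.card {x // h.sym x = t} := by
  obtain ⟨r'⟩ := (inferInstance : Nonempty R')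
  obtain ⟨c₁, h₁⟩ := (hL'.1 r').2 s
  obtain ⟨c₂, h₂⟩ := (hL'.1 r').2 t
  obtain ⟨b₁, hb₁⟩ := h.col_surj c₁
  obtain ⟨b₂, hb₂⟩ := h.col_surj c₂
  have e₁ := Nat.card_congr (Equiv.ofBijective _ ((block_isLatin hL hL' h h₁).2 ⟨b₁, hb₁⟩))
  have e₂ := Nat.card_congr (Equiv.ofBijective _ ((block_isLatin hL hL' h h₂).2 ⟨b₂, hb₂⟩))
  rw [← e₁, ← e₂]

theorem card_eq_mul [Finite S] [Nonempty R'] {L : R → C → S} {L' : R' → C' → S'} (hL : IsLatin L) (hL' : IsLatin L')
    (h : Epi L L') (s : S') : Nat.card S = Nat.card {x // h.sym x = s} * Nat.card S' := by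
  classical
  cases nonempty_fintype S
  have : Finite S' := Finite.of_surjective _ h.sym_surj
  cases nonempty_fintype S'
  rw [← Nat.card_congr (Equiv.sigmaFiberEquiv h.sym), Nat.card_sigma, Finset.sum_congr rfl
    (fun t _ => fibre_card hL hL' h t s), Finset.sum_const, smul_eq_mul, Finset.card_univ, mul_comm,
    Nat.card_eq_fintype_card (α := S')]

theorem zmod2 : ∀ x y : ZMod 2, x ≠ y → x = y + 1 := by decide

theorem zmod3 : ∀ u₀ u₁ u₂ v₀ v₁ v₂ : ZMod 3, u₀ ≠ u₁ → u₀ ≠ u₂ → u₁ ≠ u₂ → v₀ ≠ v₁ → v₀ ≠ v₂ → v₁ ≠ v₂ →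
    v₀ ≠ u₀ → v₁ ≠ u₁ → v₂ ≠ u₂ → v₁ = v₀ - u₀ + u₁ := by decide

/-- a latin square of order at most 3 is an isotope of a cyclic group -/
theorem abelian_le_three [Finite S] [Nonempty A] [Nonempty S] {T : A → B → S} (hT : IsLatin T) (h3 : Nat.card S ≤ 3) :
    AbelianIsotope T := by
  cases nonempty_fintype S
  obtain ⟨a0⟩ := (inferInstance : Nonempty A)
  obtain ⟨s0⟩ := (inferInstance : Nonempty S)
  · obtain ⟨b0, hb0⟩ := (hT.1 a0).2 s0
    have key : ∀ (n : ℕ) [NeZero n] (γ : S ≃ ZMod n), (∀ a b, a ≠ a0 → b ≠ b0 → γ (T a b) = γ (T a b0) - γ (T a0 b0) + γ (T a0 b)) →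
        AbelianIsotope T := by
      intro n _ γ hγ
      refine ⟨ZMod n, inferInstance, ((Equiv.ofBijective _ (hT.2 b0)).trans γ).trans (Equiv.subRight (γ (T a0 b0))),
        (Equiv.ofBijective _ (hT.1 a0)).trans γ, γ, fun a b => ?_⟩
      simp only [Equiv.trans_apply, Equiv.ofBijective_apply, Equiv.subRight_apply]
      by_cases ha : a = a0
      · rw [ha]; abel
      · by_cases hb : b = b0
        · rw [hb]; abel
        · exact hγ a b ha hb
    have h0 : 0 < Nat.card S := Nat.card_pos_iff.2 ⟨⟨s0⟩, inferInstance⟩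
    obtain h | h | h : Nat.card S = 1 ∨ Nat.card S = 2 ∨ Nat.card S = 3 := by omega
    · refine key 1 (Fintype.equivOfCardEq (by rw [← Nat.card_eq_fintype_card, h, ZMod.card])) fun a b _ _ => ?_
      exact Subsingleton.elim _ _
    · refine key 2 (Fintype.equivOfCardEq (by rw [← Nat.card_eq_fintype_card, h, ZMod.card])) fun a b ha _ => ?_
      set γ : S ≃ ZMod 2 := Fintype.equivOfCardEq _
      have k : ∀ b, γ (T a b) = γ (T a0 b) + 1 := fun b =>
        zmod2 _ _ fun e => ha ((hT.2 b).1 (γ.injective e))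
      rw [k b, k b0]; abel
    · refine key 3 (Fintype.equivOfCardEq (by rw [← Nat.card_eq_fintype_card, h, ZMod.card])) fun a b ha hb => ?_
      set γ : S ≃ ZMod 3 := Fintype.equivOfCardEq _
      -- the third column
      have hcB : Nat.card B = 3 := by rw [Nat.card_congr (Equiv.ofBijective _ (hT.1 a0)), h]
      obtain ⟨b', hb1, hb2⟩ : ∃ b', b' ≠ b0 ∧ b' ≠ b := by
        by_contra hcon
        push Not at hcon
        have hsub : (Set.univ : Set B) ⊆ {b0, b} := fun x _ => by
          by_cases hx : x = b0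
          · exact Or.inl hx
          · exact Or.inr (hcon x hx)
        have := Set.ncard_le_ncard hsub (Set.toFinite _)
        rw [Set.ncard_univ, hcB, Set.ncard_pair (Ne.symm hb)] at this
        omega
      have inj0 : ∀ x y, x ≠ y → γ (T a0 x) ≠ γ (T a0 y) := fun x y hxy e => hxy ((hT.1 a0).1 (γ.injective e))
      have inj1 : ∀ x y, x ≠ y → γ (T a x) ≠ γ (T a y) := fun x y hxy e => hxy ((hT.1 a).1 (γ.injective e))
      have injc : ∀ x, γ (T a x) ≠ γ (T a0 x) := fun x e => ha ((hT.2 x).1 (γ.injective e))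
      exact zmod3 _ _ (γ (T a0 b')) _ _ (γ (T a b')) (inj0 _ _ (Ne.symm hb)) (inj0 _ _ (Ne.symm hb1)) (inj0 _ _ (Ne.symm hb2))
        (inj1 _ _ (Ne.symm hb)) (inj1 _ _ (Ne.symm hb1)) (inj1 _ _ (Ne.symm hb2)) (injc _) (injc _) (injc _)

/-- an isotope of an abelian group is a latin square -/
theorem isLatin_of_abelian {T : A → B → S} (h : AbelianIsotope T) : IsLatin T := by
  obtain ⟨G, _, α, β, γ, hT⟩ := h
  have e1 : ∀ a, (fun b => T a b) = (β.trans ((Equiv.addLeft (α a)).trans γ.symm)) := by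
    intro a
    funext b
    show T a b = γ.symm (α a + β b)
    rw [← hT, Equiv.symm_apply_apply]
  have e2 : ∀ b, (fun a => T a b) = (α.trans ((Equiv.addRight (β b)).trans γ.symm)) := by
    intro b
    funext a
    show T a b = γ.symm (α a + β b)
    rw [← hT, Equiv.symm_apply_apply]
  exact ⟨fun a => by rw [e1]; exact Equiv.bijective _, fun b => by rw [e2]; exact Equiv.bijective _⟩

end Pool.Agent.Duplex38
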